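import Pool.Agent.Helper42.Tot.Main

namespace Pool.Agent.Results.MP_05f971_nt.AlmostAllBounds

/-- **The class of almost all integers is strictly inside Pillai's bounds.** Let `k(n)` be the least
`k ≥ 1` with `φ^[k] n = 1`. There is a constant `C` such that for every `N` all but at most
`C N ^ 0.996` of the integers `n` with `2 ≤ n ≤ N` satisfy `ln n ≤ k(n) ≤ 1.436 ln n`. -/
theorem result : ∃ C : ℝ, ∀ N : ℕ,
    ({n : ℕ | 2 ≤ n ∧ n ≤ N ∧
      ¬ (Real.log n ≤ ((sInf {k : ℕ | 1 ≤ k ∧ Nat.totient^[k] n = 1} : ℕ) : ℝ) ∧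
        ((sInf {k : ℕ | 1 ≤ k ∧ Nat.totient^[k] n = 1} : ℕ) : ℝ) ≤
          359 / 250 * Real.log n)}.ncard : ℝ) ≤ C * (N : ℝ) ^ (996 / 1000 : ℝ) :=
  ⟨51605, fun N => Pool.Agent.Helper42.Tot.main N⟩

end Pool.Agent.Results.MP_05f971_nt.AlmostAllBounds
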