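import Pool.Agent.Helper94.Tot.Final
import Pool.Agent.Helper42.Tot.Main

/-!
# MP_05f971_nt: the class `k(n)` has normal order `α ln n`, unconditionally

The result of the proof of the frozen statement S15913 in the words of the problem file, together with bounds for
the constant `α`.  The function `k` is given by its definition (`k(n)` is the least `j ≥ 1` with `φ^j(n) = 1`, for
every `n ≥ 2`), the normal order by its definition (the two inequalities outside a set of natural density `0`), and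
`1 ≤ α ≤ 1.436`.
-/

set_option autoImplicit false

open Filter Topology

namespace Pool.Agent.Results.MP_05f971_nt.UnconditionalNormalOrder

/-- `k` is the class function: for every `n ≥ 2`, `k n` is the least `j ≥ 1` such that the `j`-th iterate of
Euler's function takes `n` to `1` (in particular there is such a `j`). -/
def IsClass (k : ℕ → ℕ) : Prop :=
  ∀ n : ℕ, 2 ≤ n → IsLeast {j : ℕ | 1 ≤ j ∧ Nat.totient^[j] n = 1} (k n)

/-- `S` has natural density `0`: the number of the `n ≤ N` in `S`, divided by `N`, tends to `0`. -/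
def DensityZero (S : Set ℕ) : Prop :=
  Tendsto (fun N : ℕ => ({n : ℕ | n ∈ S ∧ 1 ≤ n ∧ n ≤ N}.ncard : ℝ) / (N : ℝ)) atTop (𝓝 0)

/-- `f` has normal order `g`: for every `ε > 0` the inequalities `(1 - ε) g(n) ≤ f(n) ≤ (1 + ε) g(n)` hold for
all `n ≥ 1` outside a set of natural density `0`. -/
def NormalOrder (f g : ℕ → ℝ) : Prop :=
  ∀ ε : ℝ, 0 < ε → ∃ S : Set ℕ, DensityZero S ∧
    ∀ n : ℕ, 1 ≤ n → n ∉ S → (1 - ε) * g n ≤ f n ∧ f n ≤ (1 + ε) * g n

/-- a set whose counting function over `range` is `o(N)` has density zero -/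
theorem densityZero_of_range {p : ℕ → Prop} [DecidablePred p]
    (h : Tendsto (fun N : ℕ => (((Finset.range N).filter p).card : ℝ) / (N : ℝ)) atTop (𝓝 0)) :
    DensityZero {n | p n} := by
  unfold DensityZero
  have h1 : Tendsto (fun N : ℕ => (((Finset.range N).filter p).card : ℝ) / (N : ℝ) + 1 / (N : ℝ))
      atTop (𝓝 0) := by
    have h2 : Tendsto (fun N : ℕ => 1 / (N : ℝ)) atTop (𝓝 0) := tendsto_one_div_atTop_nhds_zero_nat
    have h3 := h.add h2
    rw [add_zero] at h3
    exact h3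
  refine squeeze_zero (fun N => by positivity) (fun N => ?_) h1
  rw [← add_div]
  refine div_le_div_of_nonneg_right ?_ (Nat.cast_nonneg N)
  have h3 : {n : ℕ | n ∈ {n | p n} ∧ 1 ≤ n ∧ n ≤ N} ⊆
      (((Finset.range N).filter p ∪ {N} : Finset ℕ) : Set ℕ) := by
    intro n hn
    obtain ⟨hp, -, hn2⟩ := hn
    simp only [Finset.coe_union, Finset.coe_filter, Finset.mem_range, Finset.coe_singleton,
      Set.mem_union, Set.mem_ofPred_eq, Set.mem_singleton_iff]
    rcases Nat.lt_or_ge n N with h5 | h5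
    · exact Or.inl ⟨h5, hp⟩
    · exact Or.inr (by omega)
  have h4 := Set.ncard_le_ncard h3 (Finset.finite_toSet _)
  rw [Set.ncard_coe_finset] at h4
  have h5 : ((Finset.range N).filter p ∪ {N} : Finset ℕ).card ≤ ((Finset.range N).filter p).card + 1 := by
    have := Finset.card_union_le ((Finset.range N).filter p) {N}
    simpa using this
  exact_mod_cast h4.trans h5

theorem DensityZero.union {S T : Set ℕ} (hS : DensityZero S) (hT : DensityZero T) :
    DensityZero (S ∪ T) := by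
  unfold DensityZero at *
  have h := hS.add hT
  rw [add_zero] at h
  refine squeeze_zero (fun N => by positivity) (fun N => ?_) h
  rw [← add_div]
  refine div_le_div_of_nonneg_right ?_ (Nat.cast_nonneg N)
  have h3 : {n : ℕ | n ∈ S ∪ T ∧ 1 ≤ n ∧ n ≤ N} =
      {n : ℕ | n ∈ S ∧ 1 ≤ n ∧ n ≤ N} ∪ {n : ℕ | n ∈ T ∧ 1 ≤ n ∧ n ≤ N} := by
    ext n
    simp only [Set.mem_ofPred_eq, Set.mem_union]
    tauto
  rw [h3]
  exact_mod_cast Set.ncard_union_le _ _

/-- there is an integer `≥ 2` outside every set of density zero -/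
theorem DensityZero.exists_notMem {S : Set ℕ} (hS : DensityZero S) : ∃ n : ℕ, 2 ≤ n ∧ n ∉ S := by
  by_contra hcon
  push Not at hcon
  unfold DensityZero at hS
  have h1 : ∀ᶠ N : ℕ in atTop, ({n : ℕ | n ∈ S ∧ 1 ≤ n ∧ n ≤ N}.ncard : ℝ) / (N : ℝ) < 1 / 4 :=
    (tendsto_order.1 hS).2 _ (by norm_num)
  obtain ⟨N, hN, hN2⟩ := (h1.and (eventually_ge_atTop 2)).exists
  have h2 : ((Finset.Icc 2 N : Finset ℕ) : Set ℕ) ⊆ {n : ℕ | n ∈ S ∧ 1 ≤ n ∧ n ≤ N} := by
    intro n hn
    simp only [Finset.coe_Icc, Set.mem_Icc] at hn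
    exact ⟨hcon n hn.1, by omega, hn.2⟩
  have h3 : {n : ℕ | n ∈ S ∧ 1 ≤ n ∧ n ≤ N}.Finite :=
    (Set.finite_Icc 1 N).subset fun n hn => ⟨hn.2.1, hn.2.2⟩
  have h4 := Set.ncard_le_ncard h2 h3
  rw [Set.ncard_coe_finset, Nat.card_Icc] at h4
  have h5 : (N : ℝ) - 1 ≤ ({n : ℕ | n ∈ S ∧ 1 ≤ n ∧ n ≤ N}.ncard : ℝ) := by
    have : N + 1 - 2 + 1 = N := by omega
    have h6 : ((N + 1 - 2 : ℕ) : ℝ) + 1 = N := by exact_mod_cast this
    have h7 : ((N + 1 - 2 : ℕ) : ℝ) ≤ ({n : ℕ | n ∈ S ∧ 1 ≤ n ∧ n ≤ N}.ncard : ℝ) := by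
      exact_mod_cast h4
    linarith
  have h8 : (2 : ℝ) ≤ N := by exact_mod_cast hN2
  rw [div_lt_iff₀ (by linarith)] at hN
  linarith

theorem densityZero_of_finite {S : Set ℕ} (hS : S.Finite) : DensityZero S := by
  unfold DensityZero
  refine squeeze_zero (fun N => by positivity) (fun N => ?_)
    (tendsto_const_div_atTop_nhds_zero_nat (S.ncard : ℝ))
  refine div_le_div_of_nonneg_right ?_ (Nat.cast_nonneg N)
  have h : {n : ℕ | n ∈ S ∧ 1 ≤ n ∧ n ≤ N} ⊆ S := fun n hn => hn.1
  exact_mod_cast Set.ncard_le_ncard h hS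

open Pool.Agent.Helper42.Tot in
/-- the exceptional set of the bounds `ln n ≤ k(n) ≤ 1.436 ln n` has density zero -/
theorem densityZero_bad : DensityZero {n : ℕ | 2 ≤ n ∧ Bad n} := by
  unfold DensityZero
  have h1 : Tendsto (fun N : ℕ => 51605 * (N : ℝ) ^ (-(4 / 1000 : ℝ))) atTop (𝓝 0) := by
    have h2 := ((tendsto_rpow_neg_atTop (y := 4 / 1000) (by norm_num)).comp
      (tendsto_natCast_atTop_atTop (R := ℝ))).const_mul (51605 : ℝ)
    rw [mul_zero] at h2
    exact h2
  refine squeeze_zero' (Eventually.of_forall fun N => by positivity) ?_ h1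
  filter_upwards [eventually_ge_atTop 1] with N hN
  have hN0 : (0 : ℝ) < N := by exact_mod_cast hN
  have h3 : {n : ℕ | (2 ≤ n ∧ Bad n) ∧ 1 ≤ n ∧ n ≤ N} =
      {n : ℕ | 2 ≤ n ∧ n ≤ N ∧ Bad n} := by
    ext n
    simp only [Set.mem_ofPred_eq]
    constructor
    · rintro ⟨⟨a, b⟩, -, c⟩
      exact ⟨a, c, b⟩
    · rintro ⟨a, c, b⟩
      exact ⟨⟨a, b⟩, by omega, c⟩
  rw [h3, div_le_iff₀ hN0]
  refine (main N).trans (le_of_eq ?_)
  rw [mul_assoc]
  congr 1
  rw [← Real.rpow_add_one hN0.ne']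
  norm_num

theorem cls_eq {n : ℕ} (hn : 2 ≤ n) :
    sInf {k : ℕ | Nat.totient^[k] n = 1} = Pool.Agent.Helper42.Tot.cls n := by
  unfold Pool.Agent.Helper42.Tot.cls
  congr 1
  ext j
  simp only [Set.mem_ofPred_eq]
  constructor
  · intro h
    refine ⟨?_, h⟩
    rcases Nat.eq_zero_or_pos j with rfl | hj
    · rw [Function.iterate_zero, id] at h
      omega
    · exact hj
  · exact fun h => h.2

theorem isClass_cls : IsClass Pool.Agent.Helper42.Tot.cls := by
  intro n hn
  have h1 := (Pool.Agent.Helper42.Tot.cls_bounds hn).1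
  have h2 := Pool.Agent.Helper42.Tot.f_pos hn
  have hne : {j : ℕ | 1 ≤ j ∧ Nat.totient^[j] n = 1}.Nonempty := by
    by_contra h
    rw [Set.not_nonempty_iff_eq_empty] at h
    have h3 : Pool.Agent.Helper42.Tot.cls n = 0 := by
      unfold Pool.Agent.Helper42.Tot.cls
      rw [h, Nat.sInf_empty]
    omega
  exact ⟨Nat.sInf_mem hne, fun j hj => Nat.sInf_le hj⟩

/-- **The class `k(n)` has normal order `α ln n` for a constant `α`, and `1 ≤ α ≤ 1.436`.**  There is a function `k`
with `k(n) = min {j ≥ 1 : φ^j(n) = 1}` for all `n ≥ 2` (so `k(n)` is determined for all `n ≥ 2`), and it has this normal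
order. -/
theorem result : ∃ k : ℕ → ℕ, IsClass k ∧ ∃ α : ℝ, 1 ≤ α ∧ α ≤ 359 / 250 ∧
    NormalOrder (fun n => (k n : ℝ)) (fun n => α * Real.log n) := by
  classical
  obtain ⟨α, hα, h⟩ := Pool.Agent.Helper94.Tot.final
  have hno : NormalOrder (fun n => (Pool.Agent.Helper42.Tot.cls n : ℝ))
      (fun n => α * Real.log n) := by
    intro ε hε
    refine ⟨_, (densityZero_of_range (h ε hε)).union (densityZero_of_finite (Set.finite_singleton 1)),
      fun n hn hnS => ?_⟩
    simp only [Set.mem_union, Set.mem_ofPred_eq, Set.mem_singleton_iff, not_or, not_lt] at hnS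
    have h1 := hnS.1
    rw [cls_eq (by omega), abs_le] at h1
    constructor <;> linarith [h1.1, h1.2]
  have hlog : ∀ n : ℕ, 2 ≤ n → 0 < Real.log n := fun n hn =>
    Real.log_pos (by exact_mod_cast (by omega : 1 < n))
  refine ⟨Pool.Agent.Helper42.Tot.cls, isClass_cls, α, ?_, ?_, hno⟩
  · by_contra hlt
    rw [not_le] at hlt
    obtain ⟨S, hS, hS'⟩ := hno ((1 / α - 1) / 2) (by
      have : 1 < 1 / α := by rw [lt_div_iff₀ hα]; linarith
      linarith)
    obtain ⟨n, hn, hnS⟩ := (hS.union densityZero_bad).exists_notMem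
    rw [Set.mem_union, not_or] at hnS
    have h1 := (hS' n (by omega) hnS.1).2
    have h2 : ¬ Pool.Agent.Helper42.Tot.Bad n := fun hb => hnS.2 ⟨hn, hb⟩
    unfold Pool.Agent.Helper42.Tot.Bad at h2
    rw [not_not] at h2
    have h3 : (1 + (1 / α - 1) / 2) * (α * Real.log n) = (1 + α) / 2 * Real.log n := by
      field_simp
      ring
    simp only [] at h1
    rw [h3] at h1
    have h4 := hlog n hn
    nlinarith [h2.1]
  · by_contra hlt
    rw [not_le] at hlt
    obtain ⟨S, hS, hS'⟩ := hno ((α - 359 / 250) / (2 * α)) (div_pos (by linarith) (by linarith))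
    obtain ⟨n, hn, hnS⟩ := (hS.union densityZero_bad).exists_notMem
    rw [Set.mem_union, not_or] at hnS
    have h1 := (hS' n (by omega) hnS.1).1
    have h2 : ¬ Pool.Agent.Helper42.Tot.Bad n := fun hb => hnS.2 ⟨hn, hb⟩
    unfold Pool.Agent.Helper42.Tot.Bad at h2
    rw [not_not] at h2
    have h3 : (1 - (α - 359 / 250) / (2 * α)) * (α * Real.log n) =
        (α + 359 / 250) / 2 * Real.log n := by
      field_simp
      ring
    simp only [] at h1
    rw [h3] at h1
    have h4 := hlog n hn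
    nlinarith [h2.2]

end Pool.Agent.Results.MP_05f971_nt.UnconditionalNormalOrder
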